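import Pool.Graph.R_pool_sql_team_seeded_707910d6.T2H05.Fld.Closed
import Pool.Graph.R_seed8.H447R3.DegB

/-!
# Numerical equivalence and total spaces of families: definitions
-/

set_option autoImplicit false

open CategoryTheory AlgebraicGeometry

universe u v u' v'

namespace Pool.Agent.H28.D

open Pool.Agent.H914 VarClass Obj WeilCohomology Pool.Agent.T2H05.Fld Pool.Agent.H447

variable {k : Type u} [Field k] {𝒱 : VarClass k} {ops : CycleOps 𝒱}
  {k' : Type u'} [Field k'] {𝒱' : VarClass k'} {ops' : CycleOps 𝒱'}

section Alg

variable {K K' A B : Type*} [Field K] [Field K'] [Ring A] [Algebra K A] [Ring B] [Algebra K' B]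
  {ι : K →+* K'}

/-- The semilinear map `sp` of cohomology algebras is injective, multiplicative and compatible with
the orientations. -/
structure IsCospecialization (sp : A →ₛₗ[ι] B) (trA : A →ₗ[K] K) (trB : B →ₗ[K'] K') : Prop where
  injective : Function.Injective sp
  map_mul : ∀ a b, sp (a * b) = sp a * sp b
  tr_map : ∀ a, trB (sp a) = ι (trA a)

/-- The class maps `c` and `c'` are compatible with the map `r` of cycles and the map `s` of
cohomology groups. -/
def AreCompatible {Z Z' H H' : Type*} (c : Z → H) (c' : Z' → H') (r : Z → Z') (s : H → H') : Prop :=
  ∀ z, c' (r z) = s (c z)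

end Alg

/-- The restriction to the fibre `F` of the class of a cycle on the total space. -/
noncomputable def fibreClass {W : WeilCohomology.{u, v} ops} (M : Family W) (z : M.Y.Cycles) :
    W.H M.F :=
  W.map M.i (W.cl M.Y z)

/-- The map `r` of cycles preserves the codimension. -/
def PreservesCodim {X : 𝒱.Obj} {X' : 𝒱'.Obj} (r : X.Cycles → X'.Cycles) : Prop :=
  ∀ (q : ℕ) (z : X.Cycles), X.IsCyc q z → X'.IsCyc q (r z)

/-- The variety `G` over `k'` is the geometric generic fibre of the family `M` over `k`: there is an
injective homomorphism `sp` from the cohomology of the special fibre `F` to that of `G`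
(semilinear for an embedding of the fields of coefficients, multiplicative and compatible with
the orientations; the inverse of the specialization isomorphism), and cycles on the total space
`Y` have restrictions to `G`, whose classes correspond to the restrictions of the classes
to `F`. -/
structure GenericFibre {W : WeilCohomology.{u, v} ops} (M : Family W)
    (W' : WeilCohomology.{u', v'} ops') (G : 𝒱'.Obj) where
  /-- the embedding of the coefficient fields -/
  ι : W.K →+* W'.K
  /-- the inverse of the specialization map -/
  sp : W.H M.F →ₛₗ[ι] W'.H G
  isCospecialization : IsCospecialization sp (W.tr M.F) (W'.tr G)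
  dim_eq : G.dim = M.F.dim
  /-- the restriction of cycles to the generic fibre -/
  res : M.Y.Cycles → G.Cycles
  preservesCodim : PreservesCodim res
  cl_res : AreCompatible (fibreClass M) (W'.cl G) res sp

/-- A model over `k` of the cycle `z` of codimension `q` on the variety `V` over `k'`: the
geometric generic fibre `G` of a family over `k` has a morphism `g` to `V` which is injective on
cohomology (for instance an alteration of `V`), and the inverse image of `z` is homologically
equivalent to the restriction of a cycle on the total space of the family. -/
structure Model (W : WeilCohomology.{u, v} ops) (W' : WeilCohomology.{u', v'} ops') (V : 𝒱'.Obj)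
    (q : ℕ) (z : V.Cycles) where
  /-- the family -/
  M : Family W
  /-- the generic fibre -/
  G : 𝒱'.Obj
  /-- its identification -/
  generic : GenericFibre M W' G
  /-- the morphism to `V` -/
  g : G ⟶ V
  injective : Function.Injective (W'.map g)
  /-- the extension of `z` -/
  ζ : M.Y.Cycles
  isCyc : M.Y.IsCyc q ζ
  cl_eq : W'.cl G (generic.res ζ) = W'.map g (W'.cl V z)

/-- The variety `X'` over `k'` is the base change of the variety `X` over the algebraically closed
field `k`: the cohomology of `X` maps injectively to that of `X'`, cycles have base changes, and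
every cycle on `X'` is homologically equivalent to the base change of a cycle on `X`. -/
structure BaseChange (W : WeilCohomology.{u, v} ops) (W' : WeilCohomology.{u', v'} ops')
    (X : 𝒱.Obj) (X' : 𝒱'.Obj) where
  /-- the embedding of the coefficient fields -/
  ι : W.K →+* W'.K
  /-- the map of the cohomology groups -/
  sp : W.H X →ₛₗ[ι] W'.H X'
  isCospecialization : IsCospecialization sp (W.tr X) (W'.tr X')
  dim_eq : X'.dim = X.dim
  /-- the base change of cycles -/
  bc : X.Cycles → X'.Cycles
  preservesCodim : PreservesCodim bc
  cl_bc : AreCompatible (W.cl X) (W'.cl X') bc sp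
  descend : ∀ (q : ℕ) (z : X'.Cycles), X'.IsCyc q z → ∃ w, X.IsCyc q w ∧
    W'.cl X' (bc w) = W'.cl X' z

/-- The cycle `z` of codimension `q` is numerically equivalent to zero. -/
def IsNumTrivial (ops : CycleOps 𝒱) (X : 𝒱.Obj) (q : ℕ) (z : X.Cycles) : Prop :=
  X.IsCyc q z ∧ ∀ w, X.IsCyc (X.dim - q) w → X.V.degCycle (ops.mul z w) = 0

/-- Numerical and homological equivalence coincide on the varieties dominated by the fibre `F` of
the family, for the cycles which become invariant on the fibre: for all morphisms `g` from `F` to a
variety `V` which are injective on cohomology, every numerically trivial cycle on `V` whose class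
has an inverse image on `F` which is invariant under the monodromy is homologically trivial. -/
def HomEqNumBelowFibre {W : WeilCohomology.{u, v} ops} (M : Family W) : Prop :=
  ∀ (V : 𝒱.Obj) (g : M.F ⟶ V), Function.Injective (W.map g) → ∀ (q : ℕ) (z : V.Cycles),
    IsInvariant M (W.map g (W.cl V z)) → IsNumTrivial ops V q z → W.cl V z = 0

/-- Every cycle on every variety over `k'` has a model over `k`. -/
def EveryCycleHasModel (W : WeilCohomology.{u, v} ops) (W' : WeilCohomology.{u', v'} ops') :
    Prop :=
  ∀ (V : 𝒱'.Obj) (q : ℕ) (z : V.Cycles), V.IsCyc q z → Nonempty (Model W W' V q z)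

/-- Every variety over `k` has a base change to `k'`. -/
def EveryVarietyExtends (W : WeilCohomology.{u, v} ops) (W' : WeilCohomology.{u', v'} ops') :
    Prop :=
  ∀ X : 𝒱.Obj, ∃ X' : 𝒱'.Obj, Nonempty (BaseChange W W' X X')

end Pool.Agent.H28.D
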