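import Pool.Agent.H28.D.Defs

/-!
# Numerical equivalence and total spaces of families: proofs
-/

set_option autoImplicit false

open CategoryTheory AlgebraicGeometry

universe u v u' v'

namespace Pool.Agent.H28.D

open Pool.Agent.H914 VarClass Obj WeilCohomology Pool.Agent.T2H05.Fld Pool.Agent.H447
  Pool.Agent.W534 Pool.Agent.W498.Dom

variable {k : Type u} [Field k] {𝒱 : VarClass k} {ops : CycleOps 𝒱}
  {k' : Type u'} [Field k'] {𝒱' : VarClass k'} {ops' : CycleOps 𝒱'}

section one

variable {W : WeilCohomology.{u, v} ops}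

lemma homEqNumIn_of {X : 𝒱.Obj} (h : HomEqNum W X) (q : ℕ) : HomEqNumIn W X q := by
  intro z hz hn
  by_cases hq : q ≤ X.dim
  · exact h q hq z hz hn
  · have := W.cl_mem hz
    rw [W.gr_eq_bot X (2 * q) (by omega)] at this
    exact (Submodule.mem_bot _).1 this

lemma push_map_eq (M : Family W) (x : W.H M.Y) :
    ∃ c : W.K, c ≠ 0 ∧ W.push M.i (W.map M.i x) = c • (W.map M.f (W.cl M.S M.H ^ M.S.dim) * x) := by
  obtain ⟨c, hc, h1⟩ := M.isRestriction.cls
  refine ⟨c, hc, ?_⟩
  have h2 := W.push_mul M.i 1 x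
  rw [one_mul] at h2
  rw [h2, h1, smul_mul_assoc]

/-- The direct image of the restriction of a combination of cycle classes of codimension `q`. -/
lemma push_map_mem (M : Family W) {q : ℕ} {x : W.H M.Y} (hx : x ∈ spanCycles W M.Y q) :
    W.push M.i (W.map M.i x) ∈ spanCycles W M.Y (q + M.S.dim : ℕ) := by
  have h1 := KOp.map_span (qop_pull (W := W) M.i).kop hx
  have h2 := KOp.map_span (qop_push (W := W) M.i).kop h1
  have e : (q : ℤ) + 0 + ((M.Y.dim : ℤ) - M.F.dim) = ((q + M.S.dim : ℕ) : ℤ) := by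
    have := M.dim_eq
    omega
  rwa [e] at h2

/-- If the conjecture D holds on the total space in codimension `q + dim S`, the restrictions to the
fibre of combinations of cycle classes pair nondegenerately. -/
theorem restricted_nondeg (M : Family W) {q : ℕ} (hq : q ≤ M.F.dim)
    (hD : HomEqNumIn W M.Y (q + M.S.dim)) {x : W.H M.Y} (hx : x ∈ spanCycles W M.Y q)
    (h : ∀ w, M.Y.IsCyc (M.F.dim - q) w → W.tr M.F (W.map M.i x * W.map M.i (W.cl M.Y w)) = 0) :
    W.map M.i x = 0 := by
  apply M.isRestriction.semisimple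
  refine HomEqNumIn.span (q := q + M.S.dim) (p := M.F.dim - q)
    (by have := M.dim_eq; omega) hD (push_map_mem M hx) ?_
  intro w hw
  rw [W.even_comm (W.cl_mem hw), W.tr_push]
  exact h w hw

lemma tr_span_eq_zero {X : 𝒱.Obj} {p : ℤ} {a : W.H X}
    (h : ∀ (q : ℕ) (w : X.Cycles), (q : ℤ) = p → X.IsCyc q w → W.tr X (a * W.cl X w) = 0)
    {y : W.H X} (hy : y ∈ spanCycles W X p) : W.tr X (a * y) = 0 := by
  induction hy using Submodule.span_induction with
  | mem y hy =>
    obtain ⟨q, hq, w, hw, rfl⟩ := hy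
    exact h q w hq hw
  | zero => rw [mul_zero, map_zero]
  | add y z _ _ hy hz => rw [mul_add, map_add, hy, hz, add_zero]
  | smul c y _ hy => rw [mul_smul_comm, map_smul, hy, smul_zero]

/-- Under the conjecture D the ranks in complementary codimensions are the same. -/
lemma cycleRank_le {X : 𝒱.Obj} (h : HomEqNum W X) {q : ℕ} (hq : 2 * q ≤ X.dim) :
    cycleRank W X ((X.dim : ℤ) - q) ≤ cycleRank W X q := by
  classical
  have e : (X.dim : ℤ) - q = ((X.dim - q : ℕ) : ℤ) := by omega
  rw [e]
  let B : spanCycles W X ((X.dim - q : ℕ) : ℤ) →ₗ[W.K] Module.Dual W.K (spanCycles W X (q : ℤ)) :=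
    { toFun := fun x =>
        { toFun := fun y => W.tr X (x.1 * y.1)
          map_add' := fun y z => by simp [mul_add]
          map_smul' := fun c y => by simp }
      map_add' := fun x y => by ext z; simp [add_mul]
      map_smul' := fun c x => by ext z; simp }
  have hB : Function.Injective B := by
    rw [injective_iff_map_eq_zero]
    rintro ⟨x, hx⟩ h0
    apply Subtype.ext
    refine HomEqNumIn.span (q := X.dim - q) (p := q) (by omega) (homEqNumIn_of h _) hx ?_
    intro w hw
    have h1 := LinearMap.congr_fun h0 ⟨W.cl X w, Submodule.subset_span ⟨q, rfl, w, hw, rfl⟩⟩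
    rw [W.even_comm (W.cl_mem hw)]
    exact h1
  have h1 := LinearMap.finrank_le_finrank_of_injective hB
  rw [Subspace.dual_finrank_eq] at h1
  exact h1

lemma restricted_of_invariant' (M : Family W) (h : HomEqNum W M.Y) {q : ℤ} {x : W.H M.F}
    (hx : x ∈ spanCycles W M.F q) (hi : IsInvariant M x) : x ∈ restricted M q := by
  obtain ⟨y, rfl⟩ := hi
  exact variational M.perverse M.isCyc_H M.isCyc_E M.isRestriction M.dim_eq
    (fun _ hq => cycleRank_le h hq) hx

/-- Homogeneous: restricted classes of a given degree. -/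
theorem invariant_nondeg (M : Family W) (h : HomEqNum W M.Y) {q : ℕ} (hq : q ≤ M.F.dim)
    {x : W.H M.F} (hx : x ∈ spanCycles W M.F q) (hi : IsInvariant M x)
    (h0 : ∀ y ∈ spanCycles W M.F ((M.F.dim - q : ℕ) : ℤ), IsInvariant M y →
      W.tr M.F (x * y) = 0) : x = 0 := by
  obtain ⟨ξ, hξ, rfl⟩ := restricted_of_invariant' M h hx hi
  refine restricted_nondeg M hq (homEqNumIn_of h _) hξ ?_
  intro w hw
  refine h0 _ ?_ ⟨_, rfl⟩
  have := KOp.map_span (qop_pull (W := W) M.i).kop
    (Submodule.subset_span ⟨_, rfl, w, hw, rfl⟩ :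
      W.cl M.Y w ∈ spanCycles W M.Y ((M.F.dim - q : ℕ) : ℤ))
  rwa [add_zero] at this

lemma tr_proj_top {V : 𝒱.Obj} (a : W.H V) :
    W.tr V a = W.tr V (proj (W.isInternal V) (2 * V.dim) a) := by
  refine gr_induction (W.isInternal V)
    (p := fun a => W.tr V a = W.tr V (proj (W.isInternal V) (2 * V.dim) a)) ?_ ?_ a
  · intro l x hx
    by_cases hl : l = 2 * V.dim
    · subst hl
      rw [proj_same _ hx]
    · rw [proj_ne _ hx hl, map_zero, W.tr_eq_zero hx hl]
  · intro x y hx hy
    rw [map_add, map_add, hx, hy, map_add]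

lemma dim_le_of_injective {F V : 𝒱.Obj} (g : F ⟶ V) (hg : Function.Injective (W.map g))
    (h1 : (1 : W.H V) ≠ 0) : V.dim ≤ F.dim := by
  by_contra hlt
  push Not at hlt
  -- a nonzero element in the top degree
  obtain ⟨a, ha⟩ : ∃ a, W.tr V a ≠ 0 := by
    by_contra hcon
    push Not at hcon
    exact h1 (W.nondeg 1 (fun b => hcon _))
  have h2 : W.tr V (proj (W.isInternal V) (2 * V.dim) a) ≠ 0 := by
    rw [← tr_proj_top]
    exact ha
  have h3 := W.map_mem g (proj_mem (W.isInternal V) (2 * V.dim) a)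
  rw [W.gr_eq_bot F _ (by omega)] at h3
  have h4 := (Submodule.mem_bot _).1 h3
  rw [← map_zero (W.map g)] at h4
  rw [hg h4, map_zero] at h2
  exact h2 rfl

/-- Numerical triviality in terms of the orientation. -/
lemma tr_eq_zero_of_num {X : 𝒱.Obj} {q p : ℕ} (hpq : q + p = X.dim) {z : X.Cycles}
    (hz : X.IsCyc q z) (h : ∀ w, X.IsCyc (X.dim - q) w → X.V.degCycle (ops.mul z w) = 0)
    {w : X.Cycles} (hw : X.IsCyc p w) : W.tr X (W.cl X z * W.cl X w) = 0 := by
  rw [tr_mul_cl hz hw hpq]
  obtain rfl : X.dim - q = p := by omega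
  rw [h w hw, Rat.cast_zero]

lemma cl_eq_zero_of_lt {X : 𝒱.Obj} {q : ℕ} {z : X.Cycles} (hz : X.IsCyc q z) (hq : X.dim < q) :
    W.cl X z = 0 := by
  have := W.cl_mem hz
  rw [W.gr_eq_bot X (2 * q) (by omega)] at this
  exact (Submodule.mem_bot _).1 this

lemma cl_eq_zero_of_one {X : 𝒱.Obj} (h1 : (1 : W.H X) = 0) (z : X.Cycles) : W.cl X z = 0 := by
  rw [← mul_one (W.cl X z), h1, mul_zero]

/-- The conjecture D on the total space of a family implies the conjecture D for the cycles with
invariant inverse images on the varieties dominated by a fibre. -/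
theorem of_fibre (M : Family W) (h : HomEqNum W M.Y) {V : 𝒱.Obj} (g : M.F ⟶ V)
    (hg : Function.Injective (W.map g)) {q : ℕ} {z : V.Cycles} (hz : V.IsCyc q z)
    (hi : IsInvariant M (W.map g (W.cl V z)))
    (hn : ∀ w, V.IsCyc (V.dim - q) w → V.V.degCycle (ops.mul z w) = 0) : W.cl V z = 0 := by
  by_cases h1 : (1 : W.H V) = 0
  · exact cl_eq_zero_of_one h1 z
  have hdim := dim_le_of_injective g hg h1
  by_cases hq : V.dim < q
  · exact cl_eq_zero_of_lt hz hq
  push Not at hq
  have hx : W.map g (W.cl V z) ∈ spanCycles W M.F q := by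
    have := KOp.map_span (qop_pull (W := W) g).kop
      (Submodule.subset_span ⟨_, rfl, z, hz, rfl⟩ : W.cl V z ∈ spanCycles W V q)
    rwa [add_zero] at this
  apply hg
  rw [map_zero]
  refine invariant_nondeg M h (hq.trans hdim) hx hi ?_
  intro y hy _
  refine tr_span_eq_zero ?_ hy
  rintro p w hp hw
  obtain rfl : p = M.F.dim - q := by exact_mod_cast hp
  rw [W.even_comm (W.map_mem g (W.cl_mem hz)), ← W.tr_push, ← W.cl_push,
    ← W.even_comm (W.cl_mem hz)]
  exact tr_eq_zero_of_num (p := V.dim - q) (by omega) hz hn (ops.push_mem g hw (by omega))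

end one

section two

variable {W : WeilCohomology.{u, v} ops} {W' : WeilCohomology.{u', v'} ops'}

/-- The conjecture D over `k` implies the conjecture D for the varieties over `k'` with models. -/
theorem of_model {V : 𝒱'.Obj} {q : ℕ} {z : V.Cycles} (hz : V.IsCyc q z) (m : Model W W' V q z)
    (h : HomEqNumIn W m.M.Y (q + m.M.S.dim))
    (hn : ∀ w, V.IsCyc (V.dim - q) w → V.V.degCycle (ops'.mul z w) = 0) : W'.cl V z = 0 := by
  by_cases h1 : (1 : W'.H V) = 0
  · exact cl_eq_zero_of_one h1 z
  have hdim := dim_le_of_injective m.g m.injective h1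
  by_cases hq : V.dim < q
  · exact cl_eq_zero_of_lt hz hq
  push Not at hq
  have hG := m.generic.dim_eq
  have hcl : ∀ ζ, W'.cl m.G (m.generic.res ζ) = m.generic.sp (W.map m.M.i (W.cl m.M.Y ζ)) :=
    m.generic.cl_res
  have h2 : W.map m.M.i (W.cl m.M.Y m.ζ) = 0 := by
    refine restricted_nondeg m.M (q := q) (by omega) h
      (Submodule.subset_span ⟨_, rfl, _, m.isCyc, rfl⟩) ?_
    intro w hw
    apply m.generic.ι.injective
    rw [map_zero, ← m.generic.isCospecialization.tr_map, m.generic.isCospecialization.map_mul, ← hcl, ← hcl,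
      m.cl_eq, W'.even_comm (W'.map_mem m.g (W'.cl_mem hz)), ← W'.tr_push, ← W'.cl_push,
      ← W'.even_comm (W'.cl_mem hz)]
    exact tr_eq_zero_of_num (p := V.dim - q) (by omega) hz hn
      (ops'.push_mem m.g (m.generic.preservesCodim _ _ hw) (by omega))
  apply m.injective
  rw [← m.cl_eq, hcl, h2, map_zero, map_zero]

/-- The conjecture D over `k'` implies the conjecture D over `k`. -/
theorem of_baseChange {X : 𝒱.Obj} {X' : 𝒱'.Obj} (B : BaseChange W W' X X')
    (h : HomEqNum W' X') : HomEqNum W X := by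
  intro q hq z hz hn
  have hd := B.dim_eq
  have hcl : ∀ z, W'.cl X' (B.bc z) = B.sp (W.cl X z) := B.cl_bc
  have h1 : W'.cl X' (B.bc z) = 0 := by
    refine h q (by omega) _ (B.preservesCodim _ _ hz) ?_
    intro w' hw'
    obtain ⟨w, hw, hww⟩ := B.descend _ _ hw'
    have h2 := tr_mul_cl (W := W') (B.preservesCodim _ _ hz) hw' (by omega)
    rw [← hww, hcl, hcl, ← B.isCospecialization.map_mul, B.isCospecialization.tr_map,
      tr_eq_zero_of_num (W := W) (p := X'.dim - q) (by omega) hz hn hw, map_zero] at h2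
    exact_mod_cast h2.symm
  apply B.isCospecialization.injective
  rw [← hcl, h1, map_zero]

end two

end Pool.Agent.H28.D
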